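import Pool.Agent.H59.LIN.Targets

/-!
# lin_modules, row CLA: the Ising evaluation satisfies the skein relations (helper36)
-/

set_option autoImplicit false

open Finset Matrix
open scoped Kronecker

namespace Pool.Agent.H36.LIN

open Pool.Agent.H59.LIN

/-! ### the Clifford relations -/

/-- the sign -/
noncomputable def sn {m : ℕ} (j : Fin m) (S : Finset (Fin m)) : ℝ :=
  (-1) ^ (S.filter fun i => i < j).card

lemma cm_apply {m : ℕ} (j : Fin m) (S T : Finset (Fin m)) :
    cm m j S T = if T = symmDiff S {j} then sn j S else 0 := rfl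

lemma sn_sq {m : ℕ} (j : Fin m) (S : Finset (Fin m)) : sn j S * sn j S = 1 := by
  rw [sn, ← pow_add, ← two_mul, pow_mul]
  simp

lemma symm_mem {m : ℕ} {i : Fin m} {S : Finset (Fin m)} (h : i ∈ S) :
    symmDiff S {i} = S.erase i := by
  ext a
  rw [mem_symmDiff, mem_singleton, mem_erase]
  constructor
  · rintro (⟨h1, h2⟩ | ⟨h1, h2⟩)
    · exact ⟨h2, h1⟩
    · exact absurd (h1 ▸ h) h2
  · rintro ⟨h1, h2⟩
    exact Or.inl ⟨h2, h1⟩

lemma symm_not {m : ℕ} {i : Fin m} {S : Finset (Fin m)} (h : i ∉ S) :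
    symmDiff S {i} = insert i S := by
  ext a
  rw [mem_symmDiff, mem_singleton, mem_insert]
  constructor
  · rintro (⟨h1, h2⟩ | ⟨h1, h2⟩)
    · exact Or.inr h1
    · exact Or.inl h1
  · rintro (h1 | h1)
    · exact Or.inr ⟨h1, h1 ▸ h⟩
    · exact Or.inl ⟨h1, fun h2 => h (h2 ▸ h1)⟩

lemma sn_symm {m : ℕ} (i j : Fin m) (S : Finset (Fin m)) :
    sn j (symmDiff S {i}) = if i < j then - sn j S else sn j S := by
  by_cases hS : i ∈ S
  · rw [symm_mem hS, sn, sn, filter_erase]
    split_ifs with hij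
    · have h1 : i ∈ S.filter fun a => a < j := mem_filter.2 ⟨hS, hij⟩
      have h2 := card_erase_add_one h1
      rw [← h2, pow_succ]
      ring
    · rw [erase_eq_of_notMem]
      intro h1
      exact hij (mem_filter.1 h1).2
  · rw [symm_not hS, sn, sn, filter_insert]
    split_ifs with hij
    · have h1 : i ∉ S.filter fun a => a < j := fun h => hS (mem_filter.1 h).1
      rw [card_insert_of_notMem h1, pow_succ]
      ring
    · rfl

lemma cm_mul {m : ℕ} (i j : Fin m) (S T : Finset (Fin m)) :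
    (cm m i * cm m j) S T =
      if T = symmDiff (symmDiff S {i}) {j} then sn i S * sn j (symmDiff S {i}) else 0 := by
  rw [mul_apply, sum_eq_single (symmDiff S {i})]
  · rw [cm_apply, cm_apply, if_pos rfl, mul_ite, mul_zero]
  · intro U _ hU
    rw [cm_apply, if_neg hU, zero_mul]
  · intro h
    exact absurd (mem_univ _) h

lemma cm_sq {m : ℕ} (j : Fin m) : cm m j * cm m j = 1 := by
  ext S T
  rw [cm_mul, sn_symm, if_neg (lt_irrefl j), symmDiff_symmDiff_cancel_right, sn_sq, one_apply]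
  by_cases h : T = S
  · rw [if_pos h, if_pos h.symm]
  · rw [if_neg h, if_neg (Ne.symm h)]

lemma cm_anti {m : ℕ} {i j : Fin m} (h : i ≠ j) : cm m i * cm m j = -(cm m j * cm m i) := by
  ext S T
  rw [neg_apply, cm_mul, cm_mul, symmDiff_right_comm S {j} {i}]
  by_cases hT : T = symmDiff (symmDiff S {i}) {j}
  · rw [if_pos hT, if_pos hT, sn_symm, sn_symm]
    rcases lt_or_gt_of_ne h with h1 | h1
    · rw [if_pos h1, if_neg (not_lt.2 h1.le)]
      ring
    · rw [if_pos h1, if_neg (not_lt.2 h1.le)]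
      ring
  · rw [if_neg hT, if_neg hT, neg_zero]

/-! ### the generators -/

/-- the even generator -/
noncomputable def uu {n : ℕ} (i : Fin n) :
    Matrix (Finset (Fin (n + 1))) (Finset (Fin (n + 1))) ℝ :=
  cm (n + 1) i.castSucc * cm (n + 1) i.succ

/-- the matrix of a letter -/
noncomputable def ff {n : ℕ} (x : Fin n × Bool) :
    Matrix (Finset (Fin (n + 1))) (Finset (Fin (n + 1))) ℝ :=
  (√2)⁻¹ • (1 + (if x.2 then (1 : ℝ) else -1) • uu x.1)

lemma gm_nil {n : ℕ} : gm ([] : Wd n) = 1 := rfl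

lemma gm_cons {n : ℕ} (x : Fin n × Bool) (w : Wd n) : gm (x :: w) = ff x * gm w := by
  rw [gm, List.map_cons, List.prod_cons]
  rfl

lemma gm_append {n : ℕ} (u v : Wd n) : gm (u ++ v) = gm u * gm v := by
  rw [gm, gm, gm, List.map_append, List.prod_append]

lemma cs_ne {n : ℕ} (i : Fin n) : i.castSucc ≠ i.succ := by
  intro h
  have := congrArg Fin.val h
  simp at this

lemma uu_sq {n : ℕ} (i : Fin n) : uu i * uu i = -1 := by
  rw [uu]
  calc cm (n + 1) i.castSucc * cm (n + 1) i.succ * (cm (n + 1) i.castSucc * cm (n + 1) i.succ) =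
      cm (n + 1) i.castSucc * (cm (n + 1) i.succ * cm (n + 1) i.castSucc) * cm (n + 1) i.succ := by
        noncomm_ring
    _ = -1 := by
        rw [cm_anti (cs_ne i).symm, mul_neg, neg_mul, ← mul_assoc, cm_sq, one_mul, cm_sq]

lemma uu_comm {n : ℕ} (i j : Fin n) (h : (i : ℕ) + 1 < j) : uu i * uu j = uu j * uu i := by
  have h1 : i.castSucc ≠ j.castSucc := fun h' => by
    have := congrArg Fin.val h'
    simp only [Fin.val_castSucc] at this
    omega
  have h2 : i.castSucc ≠ j.succ := fun h' => by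
    have := congrArg Fin.val h'
    simp only [Fin.val_castSucc, Fin.val_succ] at this
    omega
  have h3 : i.succ ≠ j.castSucc := fun h' => by
    have := congrArg Fin.val h'
    simp only [Fin.val_castSucc, Fin.val_succ] at this
    omega
  have h4 : i.succ ≠ j.succ := fun h' => by
    have := congrArg Fin.val h'
    simp only [Fin.val_succ] at this
    omega
  rw [uu, uu]
  obtain ⟨a, ha⟩ : ∃ a, a = cm (n + 1) i.castSucc := ⟨_, rfl⟩
  obtain ⟨b, hb⟩ : ∃ b, b = cm (n + 1) i.succ := ⟨_, rfl⟩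
  obtain ⟨c, hc⟩ : ∃ c, c = cm (n + 1) j.castSucc := ⟨_, rfl⟩
  obtain ⟨d, hd⟩ : ∃ d, d = cm (n + 1) j.succ := ⟨_, rfl⟩
  rw [← ha, ← hb, ← hc, ← hd]
  have e1 : a * c = -(c * a) := by rw [ha, hc, cm_anti h1]
  have e2 : a * d = -(d * a) := by rw [ha, hd, cm_anti h2]
  have e3 : b * c = -(c * b) := by rw [hb, hc, cm_anti h3]
  have e4 : b * d = -(d * b) := by rw [hb, hd, cm_anti h4]
  calc a * b * (c * d) = a * (b * c) * d := by noncomm_ring
    _ = -((a * c) * (b * d)) := by
      rw [e3]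
      noncomm_ring
    _ = -(c * (a * d) * b) := by
      rw [e1, e4]
      noncomm_ring
    _ = c * d * (a * b) := by
      rw [e2]
      noncomm_ring

lemma uu_anti {n : ℕ} (i j : Fin n) (h : (j : ℕ) = i + 1) : uu i * uu j = -(uu j * uu i) := by
  have h0 : i.succ = j.castSucc := Fin.ext (by simp [h])
  have h1 : i.castSucc ≠ j.castSucc := fun h' => by
    have := congrArg Fin.val h'
    simp only [Fin.val_castSucc] at this
    omega
  have h2 : i.castSucc ≠ j.succ := fun h' => by
    have := congrArg Fin.val h'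
    simp only [Fin.val_castSucc, Fin.val_succ] at this
    omega
  rw [uu, uu, h0]
  obtain ⟨a, ha⟩ : ∃ a, a = cm (n + 1) i.castSucc := ⟨_, rfl⟩
  obtain ⟨b, hb⟩ : ∃ b, b = cm (n + 1) j.castSucc := ⟨_, rfl⟩
  obtain ⟨c, hc⟩ : ∃ c, c = cm (n + 1) j.succ := ⟨_, rfl⟩
  rw [← ha, ← hb, ← hc]
  have e0 : b * b = 1 := by rw [hb, cm_sq]
  have e1 : a * b = -(b * a) := by rw [ha, hb, cm_anti h1]
  have e2 : a * c = -(c * a) := by rw [ha, hc, cm_anti h2]
  have e3 : b * c = -(c * b) := by rw [hb, hc, cm_anti (cs_ne j)]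
  have f1 : a * b * (b * c) = a * c := by
    calc a * b * (b * c) = a * (b * b) * c := by noncomm_ring
      _ = a * c := by rw [e0, mul_one]
  have f2 : b * c * (a * b) = -(a * c) := by
    calc b * c * (a * b) = b * (c * a) * b := by noncomm_ring
      _ = -(b * (a * c) * b) := by
        rw [e2]
        noncomm_ring
      _ = -((b * a) * (c * b)) := by noncomm_ring
      _ = -((a * b) * (b * c)) := by
        rw [e1, e3]
        noncomm_ring
      _ = -(a * c) := by rw [f1]
  rw [f1, f2, neg_neg]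

lemma sq2 : (√2 : ℝ) * √2 = 2 := Real.mul_self_sqrt (by norm_num)

lemma sq2i : (√2 : ℝ)⁻¹ * (√2)⁻¹ = 1 / 2 := by
  rw [← mul_inv, sq2, one_div]

lemma ff_cancel {n : ℕ} (i : Fin n) (b : Bool) : ff (i, b) * ff (i, !b) = 1 := by
  have h1 : ∀ a : ℝ, a * a = 1 → ((√2)⁻¹ • (1 + a • uu i)) * ((√2)⁻¹ • (1 + (-a) • uu i)) = 1 := by
    intro a ha
    rw [smul_mul_smul_comm, sq2i]
    have h2 : (1 + a • uu i) * (1 + (-a) • uu i) = (2 : ℝ) • 1 := by
      have h5 : (-1 : ℝ) • (-1 : Matrix (Finset (Fin (n + 1))) (Finset (Fin (n + 1))) ℝ) = 1 := by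
        rw [neg_smul, one_smul, neg_neg]
      rw [mul_add, mul_one, add_mul, one_mul, smul_mul_smul_comm, uu_sq, mul_neg, ha, h5,
        neg_smul, two_smul]
      abel
    rw [h2, smul_smul]
    norm_num
  cases b
  · have := h1 (-1) (by norm_num)
    rw [neg_neg] at this
    simpa [ff] using this
  · have := h1 1 (by norm_num)
    simpa [ff] using this

lemma ff_far {n : ℕ} (x y : Fin n × Bool) (h : (x.1 : ℕ) + 1 < y.1) :
    ff x * ff y = ff y * ff x := by
  have h1 := uu_comm x.1 y.1 h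
  rw [ff, ff, smul_mul_smul_comm, smul_mul_smul_comm, mul_add, add_mul, add_mul, mul_add, add_mul,
    add_mul, smul_mul_smul_comm, smul_mul_smul_comm, h1, mul_comm (if x.2 = true then (1 : ℝ) else -1)]
  simp only [one_mul, mul_one]
  congr 1
  abel

lemma ff_braid {n : ℕ} (i j : Fin n) (h : (j : ℕ) = i + 1) :
    ff (i, true) * (ff (j, true) * ff (i, true)) = ff (j, true) * (ff (i, true) * ff (j, true)) := by
  have hu := uu_sq i
  have hv := uu_sq j
  have huv := uu_anti i j h
  obtain ⟨u, hu'⟩ : ∃ u, u = uu i := ⟨_, rfl⟩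
  obtain ⟨v, hv'⟩ : ∃ v, v = uu j := ⟨_, rfl⟩
  have e1 : ff (i, true) = (√2)⁻¹ • (1 + u) := by
    rw [ff, hu']
    simp
  have e2 : ff (j, true) = (√2)⁻¹ • (1 + v) := by
    rw [ff, hv']
    simp
  rw [← hu', ← hv'] at huv
  rw [← hu'] at hu
  rw [← hv'] at hv
  have h1 : u * v * u = v := by
    rw [huv, neg_mul, mul_assoc, hu, mul_neg, mul_one, neg_neg]
  have h2 : v * u * v = u := by
    have h3 : v * u = -(u * v) := by rw [huv, neg_neg]
    rw [h3, neg_mul, mul_assoc, hv, mul_neg, mul_one, neg_neg]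
  rw [e1, e2]
  simp only [smul_mul_smul_comm]
  congr 1
  calc (1 + u) * ((1 + v) * (1 + u)) =
      1 + u + v + u + u * u + (u * v + v * u) + u * v * u := by noncomm_ring
    _ = 1 + u + v + v + v * v + (u * v + v * u) + v * u * v := by
      rw [h1, h2, hu, hv]
      abel
    _ = (1 + v) * ((1 + u) * (1 + v)) := by noncomm_ring

lemma ff_skein {n : ℕ} (i : Fin n) : ff (i, true) = -ff (i, false) + (√2 : ℝ) • 1 := by
  rw [ff, ff]
  simp only [if_true, Bool.false_eq_true, if_false, one_smul, neg_smul]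
  have h1 : (√2 : ℝ) = (√2)⁻¹ * 2 := by
    rw [eq_inv_mul_iff_mul_eq₀ (Real.sqrt_pos.2 (by norm_num)).ne']
    exact sq2
  have h2 : (√2 : ℝ) • (1 : Matrix (Finset (Fin (n + 1))) (Finset (Fin (n + 1))) ℝ) =
      (√2 : ℝ)⁻¹ • (1 + 1) := by
    conv_lhs => rw [h1]
    rw [mul_smul, two_smul]
  rw [h2, ← smul_neg, ← smul_add]
  congr 1
  abel

/-! ### one more strand -/

/-- the last element and the others -/
def eS (m : ℕ) : Finset (Fin (m + 1)) ≃ Finset (Fin m) × Bool where
  toFun S := (univ.filter fun i => i.castSucc ∈ S, decide (Fin.last m ∈ S))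
  invFun p := univ.filter fun i => if h : (i : ℕ) < m then (⟨i, h⟩ : Fin m) ∈ p.1 else p.2 = true
  left_inv S := by
    ext i
    rw [mem_filter]
    simp only [mem_univ, true_and]
    refine Fin.lastCases ?_ (fun i => ?_) i
    · rw [dif_neg (by simp)]
      simp
    · rw [dif_pos (by simp)]
      simp
  right_inv p := by
    ext i
    · simp only [mem_filter, mem_univ, true_and]
      rw [dif_pos (by simp)]
      simp
    · simp

/-- one more strand -/
noncomputable def rho {m : ℕ} (A : Matrix (Finset (Fin m)) (Finset (Fin m)) ℝ) :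
    Matrix (Finset (Fin (m + 1))) (Finset (Fin (m + 1))) ℝ :=
  (A ⊗ₖ (1 : Matrix Bool Bool ℝ)).submatrix (eS m) (eS m)

lemma rho_one {m : ℕ} : rho (1 : Matrix (Finset (Fin m)) (Finset (Fin m)) ℝ) = 1 := by
  rw [rho, one_kronecker_one, submatrix_one_equiv]

lemma rho_mul {m : ℕ} (A B : Matrix (Finset (Fin m)) (Finset (Fin m)) ℝ) :
    rho (A * B) = rho A * rho B := by
  rw [rho, rho, rho, submatrix_mul_equiv, ← mul_kronecker_mul, one_mul]

lemma rho_add {m : ℕ} (A B : Matrix (Finset (Fin m)) (Finset (Fin m)) ℝ) :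
    rho (A + B) = rho A + rho B := by
  rw [rho, rho, rho, add_kronecker]
  rfl

lemma rho_smul {m : ℕ} (c : ℝ) (A : Matrix (Finset (Fin m)) (Finset (Fin m)) ℝ) :
    rho (c • A) = c • rho A := by
  rw [rho, rho, smul_kronecker]
  rfl

lemma rho_trace {m : ℕ} (A : Matrix (Finset (Fin m)) (Finset (Fin m)) ℝ) :
    (rho A).trace = 2 * A.trace := by
  have h1 : (rho A).trace = (A ⊗ₖ (1 : Matrix Bool Bool ℝ)).trace := by
    rw [trace, trace]
    exact Fintype.sum_equiv (eS m) _ _ fun S => rfl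
  rw [h1, trace_kronecker, trace_one, Fintype.card_bool]
  push_cast
  ring

lemma rho_cm {m : ℕ} (j : Fin m) : rho (cm m j) = cm (m + 1) j.castSucc := by
  ext S T
  rw [rho, submatrix_apply, kroneckerMap_apply, cm_apply, cm_apply, one_apply]
  have h1 : sn j.castSucc S = sn j (eS m S).1 := by
    rw [sn, sn]
    congr 1
    have h2 : (S.filter fun i => i < j.castSucc) =
        ((eS m S).1.filter fun i => i < j).map Fin.castSuccEmb := by
      ext i
      rw [mem_map]
      constructor
      · intro hi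
        obtain ⟨hi1, hi2⟩ := mem_filter.1 hi
        have hi3 : (i : ℕ) < m := by
          have h3 : (i : ℕ) < (j : ℕ) := hi2
          exact h3.trans j.2
        refine ⟨⟨i, hi3⟩, mem_filter.2 ⟨mem_filter.2 ⟨mem_univ _, ?_⟩, hi2⟩, rfl⟩
        exact hi1
      · rintro ⟨a, ha, rfl⟩
        obtain ⟨ha1, ha2⟩ := mem_filter.1 ha
        exact mem_filter.2 ⟨(mem_filter.1 ha1).2, ha2⟩
    rw [h2, card_map]
  have h2 : T = symmDiff S {j.castSucc} ↔
      (eS m T).1 = symmDiff (eS m S).1 {j} ∧ (eS m S).2 = (eS m T).2 := by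
    constructor
    · intro h
      subst h
      refine ⟨?_, ?_⟩
      · ext i
        simp only [eS, Equiv.coe_fn_mk, mem_filter, mem_univ, true_and, mem_symmDiff,
          mem_singleton, Fin.castSucc_inj]
      · have h3 : Fin.last m ≠ j.castSucc := (Fin.castSucc_lt_last j).ne'
        simp only [eS, Equiv.coe_fn_mk, mem_symmDiff, mem_singleton]
        simp [h3]
    · rintro ⟨h3, h4⟩
      ext i
      refine Fin.lastCases ?_ (fun i => ?_) i
      · have h5 : Fin.last m ≠ j.castSucc := (Fin.castSucc_lt_last j).ne'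
        simp only [eS, Equiv.coe_fn_mk, decide_eq_decide] at h4
        rw [mem_symmDiff, mem_singleton, ← h4]
        simp [h5]
      · have h5 := congrArg (fun A => i ∈ A) h3
        simp only [eS, Equiv.coe_fn_mk, mem_filter, mem_univ, true_and, mem_symmDiff,
          mem_singleton, eq_iff_iff] at h5
        rw [h5, mem_symmDiff, mem_singleton, Fin.castSucc_inj]
  by_cases hT : T = symmDiff S {j.castSucc}
  · obtain ⟨h3, h4⟩ := h2.1 hT
    rw [if_pos h3, if_pos h4, if_pos hT, mul_one, h1]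
  · rw [if_neg hT]
    by_cases h3 : (eS m T).1 = symmDiff (eS m S).1 {j}
    · have h4 : ¬ (eS m S).2 = (eS m T).2 := fun h4 => hT (h2.2 ⟨h3, h4⟩)
      rw [if_neg h4, mul_zero]
    · rw [if_neg h3, zero_mul]

lemma rho_ff {n : ℕ} (x : Fin n × Bool) : rho (ff x) = ff (x.1.castSucc, x.2) := by
  rw [ff, ff, rho_smul, rho_add, rho_one, rho_smul, uu, uu, rho_mul, rho_cm, rho_cm,
    Fin.succ_castSucc]

lemma gm_up {n : ℕ} (w : Wd n) : gm (up w) = rho (gm w) := by
  induction w with
  | nil =>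
    rw [gm_nil, rho_one]
    rfl
  | cons x w ih =>
    have h1 : up (x :: w) = (x.1.castSucc, x.2) :: up w := rfl
    rw [h1, gm_cons, gm_cons, rho_mul, rho_ff, ih]

/-- the words in the first generators commute with the last Clifford generator -/
lemma gm_last {n : ℕ} (w : Wd n) :
    cm (n + 1 + 1) (Fin.last (n + 1)) * gm (up w) = gm (up w) * cm (n + 1 + 1) (Fin.last (n + 1)) := by
  induction w with
  | nil =>
    have : up ([] : Wd n) = [] := rfl
    rw [this, gm_nil, mul_one, one_mul]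
  | cons x w ih =>
    have h1 : up (x :: w) = (x.1.castSucc, x.2) :: up w := rfl
    have h2 : cm (n + 1 + 1) (Fin.last (n + 1)) * ff (x.1.castSucc, x.2) =
        ff (x.1.castSucc, x.2) * cm (n + 1 + 1) (Fin.last (n + 1)) := by
      have h3 : cm (n + 1 + 1) (Fin.last (n + 1)) * uu x.1.castSucc =
          uu x.1.castSucc * cm (n + 1 + 1) (Fin.last (n + 1)) := by
        have e1 : Fin.last (n + 1) ≠ x.1.castSucc.castSucc := (Fin.castSucc_lt_last _).ne'
        have e2 : Fin.last (n + 1) ≠ x.1.castSucc.succ := by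
          rw [Fin.succ_castSucc]
          exact (Fin.castSucc_lt_last _).ne'
        rw [uu, ← mul_assoc, cm_anti e1, neg_mul, mul_assoc, cm_anti e2, mul_neg, neg_neg,
          mul_assoc]
      rw [ff, mul_smul_comm, smul_mul_assoc, mul_add, add_mul, mul_smul_comm, smul_mul_assoc, h3,
        mul_one, one_mul]
    rw [h1, gm_cons, ← mul_assoc, h2, mul_assoc, ih, mul_assoc]

theorem pf_CLA : Pool.Agent.H59.LIN.T_CLA := by
  have h2 : (√2 : ℝ) ≠ 0 := (Real.sqrt_pos.2 (by norm_num)).ne'
  refine ⟨?_, ?_, ?_, ?_, ?_, ?_, ?_, ?_⟩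
  · rw [TI, gm_nil, trace_one]
    simp
  · intro n w
    rw [TI, TI, gm_up, rho_trace, pow_succ, pow_succ (2 : ℝ) (n + 1)]
    field_simp
  · intro n w b
    have h3 : (gm (up w) * uu (Fin.last n)).trace = 0 := by
      have e1 : (Fin.last n).succ = Fin.last (n + 1) := rfl
      have e2 : (Fin.last n).castSucc ≠ Fin.last (n + 1) := (Fin.castSucc_lt_last _).ne
      have e3 : (gm (up w) * uu (Fin.last n)).trace = -(gm (up w) * uu (Fin.last n)).trace := by
        conv_lhs => rw [uu, e1, ← mul_assoc, trace_mul_comm, ← mul_assoc, gm_last, mul_assoc,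
          cm_anti e2.symm, mul_neg, trace_neg]
        rw [uu, e1]
      linarith
    have h4 : (gm (up w) * ff (Fin.last n, b)).trace = (√2)⁻¹ * (2 * (gm w).trace) := by
      rw [ff, Matrix.mul_smul, trace_smul, mul_add, mul_one, trace_add, Matrix.mul_smul,
        trace_smul, h3, smul_zero, add_zero, gm_up, rho_trace, smul_eq_mul]
    rw [TI, TI, gm_append, gm_cons, gm_nil, mul_one, h4, pow_succ, pow_succ (2 : ℝ) (n + 1)]
    field_simp
  · intro n u v
    rw [TI, TI, gm_append, gm_append, trace_mul_comm]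
  · intro n u v i b
    rw [TI, TI, gm_append, gm_append, gm_cons, gm_cons, ← mul_assoc (ff _), ff_cancel, one_mul]
  · intro n u v i j b c h
    rw [TI, TI, gm_append, gm_append, gm_cons, gm_cons, gm_cons, gm_cons, ← mul_assoc (ff _),
      ff_far (i, b) (j, c) h, mul_assoc (ff _)]
  · intro n u v i j h
    rw [TI, TI, gm_append, gm_append, gm_cons, gm_cons, gm_cons, gm_cons, gm_cons, gm_cons]
    have h3 : ff (i, true) * (ff (j, true) * (ff (i, true) * gm v)) =
        ff (j, true) * (ff (i, true) * (ff (j, true) * gm v)) := by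
      have h4 := congrArg (fun M => M * gm v) (ff_braid i j h)
      simp only [mul_assoc] at h4
      exact h4
    rw [h3]
  · intro n u v i
    rw [TI, TI, TI, gm_append, gm_append, gm_append, gm_cons, gm_cons, ff_skein, add_mul, neg_mul,
      smul_mul_assoc, one_mul, mul_add, mul_neg, mul_smul_comm, trace_add, trace_neg, trace_smul,
      sq2, smul_eq_mul]
    ring

end Pool.Agent.H36.LIN
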