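import Pool.Agent.H59.LIN.Targets

/-!
# lin_modules, row IND: skein induction (helper36)
-/

set_option autoImplicit false

namespace Pool.Agent.H36.LIN

open Pool.Agent.H59.LIN

lemma in_split {α : Type} (p : α → Bool) (w : List α) (h : 1 ≤ w.countP p) :
    ∃ a x c, w = a ++ x :: c ∧ p x = true ∧ ∀ y ∈ a, p y = false := by
  induction w with
  | nil => simp at h
  | cons y w ih =>
    by_cases hy : p y = true
    · exact ⟨[], y, w, rfl, hy, fun z hz => absurd hz List.not_mem_nil⟩
    · rw [List.countP_cons_of_neg hy] at h
      obtain ⟨a, x, c, h1, h2, h3⟩ := ih h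
      refine ⟨y :: a, x, c, by rw [h1]; rfl, h2, ?_⟩
      intro z hz
      rcases List.mem_cons.1 hz with rfl | hz
      · simpa using hy
      · exact h3 z hz

section one

variable {n : ℕ} {P : Wd n → Prop}
  (hfar : ∀ (u v : Wd n) (i j : Fin n) (b c : Bool), ((i : ℕ) + 1 < j ∨ (j : ℕ) + 1 < i) →
    P (u ++ (i, b) :: (j, c) :: v) → P (u ++ (j, c) :: (i, b) :: v))

include hfar

lemma in_farA (x : Fin n × Bool) (m : Wd n) (hm : ∀ y ∈ m, (y.1 : ℕ) + 1 < x.1) (u v : Wd n)
    (h : P (u ++ x :: (m ++ v))) : P (u ++ (m ++ x :: v)) := by
  induction m generalizing u with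
  | nil => exact h
  | cons y m ih =>
    have h1 : P (u ++ y :: x :: (m ++ v)) :=
      hfar u (m ++ v) x.1 y.1 x.2 y.2 (Or.inr (hm y List.mem_cons_self)) h
    have h2 := ih (fun z hz => hm z (List.mem_cons_of_mem _ hz)) (u ++ [y]) (by
      simp only [List.append_assoc, List.cons_append, List.nil_append]
      exact h1)
    simp only [List.append_assoc, List.cons_append, List.nil_append] at h2 ⊢
    exact h2

lemma in_farB (x : Fin n × Bool) (m : Wd n) (hm : ∀ y ∈ m, (y.1 : ℕ) + 1 < x.1) (u v : Wd n)
    (h : P (u ++ (m ++ x :: v))) : P (u ++ x :: (m ++ v)) := by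
  induction m generalizing u with
  | nil => exact h
  | cons y m ih =>
    have h2 := ih (fun z hz => hm z (List.mem_cons_of_mem _ hz)) (u ++ [y]) (by
      simp only [List.append_assoc, List.cons_append, List.nil_append] at h ⊢
      exact h)
    simp only [List.append_assoc, List.cons_append, List.nil_append] at h2 ⊢
    exact hfar u (m ++ v) y.1 x.1 y.2 x.2 (Or.inl (hm y List.mem_cons_self)) h2

end one

/-- the number of letters of index `k` -/
def oc {n : ℕ} (k : ℕ) (w : Wd n) : ℕ := w.countP fun x => decide ((x.1 : ℕ) = k)

lemma oc_append {n : ℕ} (k : ℕ) (u v : Wd n) : oc k (u ++ v) = oc k u + oc k v :=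
  List.countP_append

lemma oc_cons_eq {n : ℕ} {k : ℕ} {x : Fin n × Bool} (w : Wd n) (h : (x.1 : ℕ) = k) :
    oc k (x :: w) = oc k w + 1 := by
  rw [oc, List.countP_cons_of_pos (by simpa using h)]
  rfl

lemma oc_cons_ne {n : ℕ} {k : ℕ} {x : Fin n × Bool} (w : Wd n) (h : (x.1 : ℕ) ≠ k) :
    oc k (x :: w) = oc k w := by
  rw [oc, List.countP_cons_of_neg (by simpa using h)]
  rfl

lemma oc_zero {n : ℕ} {k : ℕ} {w : Wd n} (h : oc k w = 0) : ∀ x ∈ w, (x.1 : ℕ) ≠ k := by
  intro x hx hk
  have := List.countP_eq_zero.1 h x hx
  simp [hk] at this

lemma oc_lt {n : ℕ} {k : ℕ} {w : Wd n} (h : ∀ x ∈ w, (x.1 : ℕ) < k) : oc k w = 0 := by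
  rw [oc, List.countP_eq_zero]
  intro x hx
  have := h x hx
  simp only [decide_eq_true_eq]
  omega

/-- one step of the reduction -/
theorem in_step {n : ℕ} {P : Wd n → Prop}
    (hcancel : ∀ (u v : Wd n) (i : Fin n) (b : Bool), P (u ++ v) →
      P (u ++ (i, b) :: (i, !b) :: v))
    (hfar : ∀ (u v : Wd n) (i j : Fin n) (b c : Bool), ((i : ℕ) + 1 < j ∨ (j : ℕ) + 1 < i) →
      P (u ++ (i, b) :: (j, c) :: v) → P (u ++ (j, c) :: (i, b) :: v))
    (hbraid : ∀ (u v : Wd n) (i j : Fin n), (j : ℕ) = i + 1 →
      P (u ++ (i, true) :: (j, true) :: (i, true) :: v) →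
      P (u ++ (j, true) :: (i, true) :: (j, true) :: v))
    (hsk : ∀ (u v : Wd n) (i : Fin n) (b c : Bool), P (u ++ (i, c) :: v) → P (u ++ v) →
      P (u ++ (i, b) :: v)) :
    ∀ (k : ℕ) (w : Wd n), (∀ x ∈ w, (x.1 : ℕ) < k) → ∀ u v : Wd n,
      (∀ w1 : Wd n, (∀ x ∈ w1, (x.1 : ℕ) < k) → oc (k - 1) w1 ≤ 1 → P (u ++ (w1 ++ v))) →
      P (u ++ (w ++ v)) := by
  intro k
  induction k with
  | zero =>
    intro w hw u v H
    exact H w hw (by
      cases w with
      | nil => simp [oc]
      | cons x w => exact absurd (hw x List.mem_cons_self) (Nat.not_lt_zero _))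
  | succ k IH =>
    intro w hw u v H
    rw [Nat.add_sub_cancel] at H
    suffices hN : ∀ (N : ℕ) (w : Wd n), (∀ x ∈ w, (x.1 : ℕ) < k + 1) → oc k w ≤ N →
        P (u ++ (w ++ v)) from hN _ w hw le_rfl
    intro N
    induction N with
    | zero =>
      intro w hw hoc
      exact H w hw (by omega)
    | succ N IHN =>
      intro w hw hoc
      by_cases h1 : oc k w ≤ 1
      · exact H w hw h1
      obtain ⟨a, x, w', hw1, hx, ha⟩ := in_split (fun x => decide ((x.1 : ℕ) = k)) w (by
        have : oc k w = w.countP fun x => decide ((x.1 : ℕ) = k) := rfl
        omega)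
      rw [decide_eq_true_eq] at hx
      have ha0 : oc k a = 0 := by
        rw [oc, List.countP_eq_zero]
        intro y hy
        rw [ha y hy]
        exact Bool.false_ne_true
      have hoc' : oc k w = oc k w' + 1 := by
        rw [hw1, oc_append, oc_cons_eq _ hx, ha0, zero_add]
      obtain ⟨m, y, c, hw2, hy, hm⟩ := in_split (fun x => decide ((x.1 : ℕ) = k)) w' (by
        have : oc k w' = w'.countP fun x => decide ((x.1 : ℕ) = k) := rfl
        omega)
      rw [decide_eq_true_eq] at hy
      have hm0 : oc k m = 0 := by
        rw [oc, List.countP_eq_zero]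
        intro y hy
        rw [hm y hy]
        exact Bool.false_ne_true
      have hoc'' : oc k w' = oc k c + 1 := by
        rw [hw2, oc_append, oc_cons_eq _ hy, hm0, zero_add]
      -- bounds for the indices
      have hal : ∀ z ∈ a, (z.1 : ℕ) < k + 1 := fun z hz => hw z (by
        rw [hw1]
        exact List.mem_append_left _ hz)
      have hcl : ∀ z ∈ c, (z.1 : ℕ) < k + 1 := fun z hz => hw z (by
        rw [hw1, hw2]
        exact List.mem_append_right _ (List.mem_cons_of_mem _
          (List.mem_append_right _ (List.mem_cons_of_mem _ hz))))
      have hml : ∀ z ∈ m, (z.1 : ℕ) < k := by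
        intro z hz
        have h2 : (z.1 : ℕ) < k + 1 := hw z (by
          rw [hw1, hw2]
          exact List.mem_append_right _ (List.mem_cons_of_mem _ (List.mem_append_left _ hz)))
        have h3 := hm z hz
        rw [decide_eq_false_iff_not] at h3
        omega
      obtain ⟨i, b1⟩ := x
      obtain ⟨i', b2⟩ := y
      have hii : i' = i := Fin.ext (by simpa using hy.trans hx.symm)
      subst hii
      have hik : (i' : ℕ) = k := hx
      -- two adjacent letters
      have F0 : ∀ (a' c' : Wd n) (d1 d2 : Bool), (∀ z ∈ a', (z.1 : ℕ) < k + 1) →
          (∀ z ∈ c', (z.1 : ℕ) < k + 1) → oc k a' + oc k c' + 1 ≤ N →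
          P (u ++ (a' ++ (i', d1) :: (i', d2) :: (c' ++ v))) := by
        intro a' c' d1 d2 ha' hc' hoc1
        have h2 : P (u ++ ((a' ++ c') ++ v)) := IHN (a' ++ c') (fun z hz => by
          rcases List.mem_append.1 hz with h | h
          · exact ha' z h
          · exact hc' z h) (by
          rw [oc_append]
          omega)
        have h3 : P (u ++ ((a' ++ (i', d1) :: c') ++ v)) :=
          IHN (a' ++ (i', d1) :: c') (fun z hz => by
          rcases List.mem_append.1 hz with h | h
          · exact ha' z h
          · rcases List.mem_cons.1 h with rfl | h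
            · exact hik ▸ Nat.lt_succ_self _
            · exact hc' z h) (by
          rw [oc_append, oc_cons_eq _ hik]
          omega)
        have h4 : P ((u ++ a') ++ (i', d1) :: (i', !d1) :: (c' ++ v)) := hcancel _ _ _ _ (by
          simp only [List.append_assoc] at h2 ⊢
          exact h2)
        have h5 := hsk (u ++ a' ++ [(i', d1)]) (c' ++ v) i' d2 (!d1) (by
          simp only [List.append_assoc, List.cons_append, List.nil_append] at h4 ⊢
          exact h4) (by
          simp only [List.append_assoc, List.cons_append, List.nil_append] at h3 ⊢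
          exact h3)
        simp only [List.append_assoc, List.cons_append, List.nil_append] at h5 ⊢
        exact h5
      have hcount : oc k a + oc k c + 1 ≤ N := by omega
      -- reduce the word in the middle
      have key := IH m hml (u ++ a ++ [(i', b1)]) ((i', b2) :: (c ++ v)) (by
        intro m1 hm1 hoc1
        by_cases h0 : oc (k - 1) m1 = 0
        · have h2 : ∀ z ∈ m1, (z.1 : ℕ) + 1 < i' := by
            intro z hz
            have h3 := hm1 z hz
            have h4 := oc_zero h0 z hz
            omega
          have h5 := F0 a (m1 ++ c) b1 b2 hal (fun z hz => by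
            rcases List.mem_append.1 hz with h | h
            · have := hm1 z h
              omega
            · exact hcl z h) (by
            rw [oc_append, oc_lt hm1]
            omega)
          have h6 := in_farA hfar (i', b2) m1 h2 (u ++ a ++ [(i', b1)]) (c ++ v) (by
            simp only [List.append_assoc, List.cons_append, List.nil_append] at h5 ⊢
            exact h5)
          exact h6
        · obtain ⟨p, z, q, hm1e, hz, hp⟩ := in_split (fun x => decide ((x.1 : ℕ) = k - 1)) m1 (by
            have : oc (k - 1) m1 = m1.countP fun x => decide ((x.1 : ℕ) = k - 1) := rfl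
            omega)
          rw [decide_eq_true_eq] at hz
          have hp0 : oc (k - 1) p = 0 := by
            rw [oc, List.countP_eq_zero]
            intro y hy
            rw [hp y hy]
            exact Bool.false_ne_true
          have hq0 : oc (k - 1) q = 0 := by
            rw [hm1e, oc_append, oc_cons_eq _ hz] at hoc1
            omega
          have hzk : (z.1 : ℕ) < k := hm1 z (by
            rw [hm1e]
            exact List.mem_append_right _ List.mem_cons_self)
          have hpl : ∀ y ∈ p, (y.1 : ℕ) < k := fun y hy => hm1 y (by
            rw [hm1e]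
            exact List.mem_append_left _ hy)
          have hql : ∀ y ∈ q, (y.1 : ℕ) < k := fun y hy => hm1 y (by
            rw [hm1e]
            exact List.mem_append_right _ (List.mem_cons_of_mem _ hy))
          have hp2 : ∀ y ∈ p, (y.1 : ℕ) + 1 < i' := by
            intro y hy
            have h3 := hpl y hy
            have h4 := oc_zero hp0 y hy
            omega
          have hq2 : ∀ y ∈ q, (y.1 : ℕ) + 1 < i' := by
            intro y hy
            have h3 := hql y hy
            have h4 := oc_zero hq0 y hy
            omega
          obtain ⟨j, c0⟩ := z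
          have hj : (i' : ℕ) = j + 1 := by
            have h3 : (j : ℕ) = k - 1 := hz
            have h4 : (j : ℕ) < k := hzk
            omega
          have hjk : (j : ℕ) ≠ k := by
            have h4 : (j : ℕ) < k := hzk
            omega
          have hA : ∀ z ∈ a ++ p, (z.1 : ℕ) < k + 1 := fun z hz => by
            rcases List.mem_append.1 hz with h | h
            · exact hal z h
            · have := hpl z h
              omega
          have hC : ∀ z ∈ q ++ c, (z.1 : ℕ) < k + 1 := fun z hz => by
            rcases List.mem_append.1 hz with h | h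
            · have := hql z h
              omega
            · exact hcl z h
          have hAo : oc k (a ++ p) = oc k a := by
            rw [oc_append, oc_lt hpl, add_zero]
          have hCo : oc k (q ++ c) = oc k c := by
            rw [oc_append, oc_lt hql, zero_add]
          obtain ⟨A, hAe⟩ : ∃ A, A = a ++ p := ⟨_, rfl⟩
          obtain ⟨C, hCe⟩ : ∃ C, C = q ++ c := ⟨_, rfl⟩
          rw [← hAe] at hA hAo
          rw [← hCe] at hC hCo
          have hjl : ∀ b : Bool, ((((j, b) : Fin n × Bool).1 : Fin n) : ℕ) < k + 1 := fun b => by
            have h4 : (j : ℕ) < k := hzk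
            exact Nat.lt_succ_of_lt h4
          have hil : ∀ b : Bool, ((((i', b) : Fin n × Bool).1 : Fin n) : ℕ) < k + 1 := fun b =>
            hik ▸ Nat.lt_succ_self _
          -- words with fewer letters of index `k`
          have G : ∀ B : Wd n, (∀ z ∈ B, (z.1 : ℕ) < k + 1) → oc k B ≤ 1 →
              P (u ++ (A ++ (B ++ (C ++ v)))) := by
            intro B hB hBo
            have h2 := IHN (A ++ (B ++ C)) (fun z hz => by
              rcases List.mem_append.1 hz with h | h
              · exact hA z h
              · rcases List.mem_append.1 h with h | h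
                · exact hB z h
                · exact hC z h) (by
              rw [oc_append, oc_append]
              omega)
            simp only [List.append_assoc] at h2 ⊢
            exact h2
          have T1 : P ((u ++ A) ++ (i', true) :: (j, true) :: (i', true) :: (C ++ v)) := by
            refine hbraid _ _ j i' hj ?_
            have h2 := G [(j, true), (i', true), (j, true)] (fun z hz => by
              simp only [List.mem_cons, List.not_mem_nil, or_false] at hz
              rcases hz with rfl | rfl | rfl
              · exact hjl _
              · exact hil _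
              · exact hjl _) (by
              rw [oc_cons_ne _ hjk, oc_cons_eq _ hik, oc_cons_ne _ hjk]
              simp [oc])
            simp only [List.append_assoc, List.cons_append, List.nil_append] at h2 ⊢
            exact h2
          have T2 : P ((u ++ A) ++ (i', b1) :: (j, true) :: (i', true) :: (C ++ v)) := by
            refine hsk _ _ i' b1 true T1 ?_
            have h2 := G [(j, true), (i', true)] (fun z hz => by
              simp only [List.mem_cons, List.not_mem_nil, or_false] at hz
              rcases hz with rfl | rfl
              · exact hjl _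
              · exact hil _) (by
              rw [oc_cons_ne _ hjk, oc_cons_eq _ hik]
              simp [oc])
            simp only [List.append_assoc, List.cons_append, List.nil_append] at h2 ⊢
            exact h2
          have T3 : P ((u ++ A ++ [(i', b1)]) ++ (j, c0) :: (i', true) :: (C ++ v)) := by
            refine hsk _ _ j c0 true ?_ ?_
            · simp only [List.append_assoc, List.cons_append, List.nil_append] at T2 ⊢
              exact T2
            · have h2 := F0 A C b1 true hA hC (by omega)
              simp only [List.append_assoc, List.cons_append, List.nil_append] at h2 ⊢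
              exact h2
          have T4 : P ((u ++ A ++ [(i', b1), (j, c0)]) ++ (i', b2) :: (C ++ v)) := by
            refine hsk _ _ i' b2 true ?_ ?_
            · simp only [List.append_assoc, List.cons_append, List.nil_append] at T3 ⊢
              exact T3
            · have h2 := G [(i', b1), (j, c0)] (fun z hz => by
                simp only [List.mem_cons, List.not_mem_nil, or_false] at hz
                rcases hz with rfl | rfl
                · exact hil _
                · exact hjl _) (by
                rw [oc_cons_eq _ hik, oc_cons_ne _ hjk]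
                simp [oc])
              simp only [List.append_assoc, List.cons_append, List.nil_append] at h2 ⊢
              exact h2
          rw [hAe, hCe] at T4
          have T5 := in_farA hfar (i', b2) q hq2 (u ++ (a ++ p) ++ [(i', b1), (j, c0)]) (c ++ v) (by
            simp only [List.append_assoc, List.cons_append, List.nil_append] at T4 ⊢
            exact T4)
          have T6 := in_farB hfar (i', b1) p hp2 (u ++ a) ((j, c0) :: (q ++ (i', b2) :: (c ++ v))) (by
            simp only [List.append_assoc, List.cons_append, List.nil_append] at T5 ⊢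
            exact T5)
          rw [hm1e]
          simp only [List.append_assoc, List.cons_append, List.nil_append] at T6 ⊢
          exact T6)
      rw [hw1, hw2]
      simp only [List.append_assoc, List.cons_append, List.nil_append] at key ⊢
      exact key

/-- words without the last generator -/
lemma in_up {n : ℕ} (w : Wd (n + 1)) (hw : ∀ x ∈ w, (x.1 : ℕ) < n) : ∃ w0 : Wd n, w = up w0 := by
  induction w with
  | nil => exact ⟨[], rfl⟩
  | cons x w ih =>
    obtain ⟨w0, hw0⟩ := ih fun y hy => hw y (List.mem_cons_of_mem _ hy)
    refine ⟨(⟨x.1, hw x List.mem_cons_self⟩, x.2) :: w0, ?_⟩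
    have h1 : up ((⟨x.1, hw x List.mem_cons_self⟩, x.2) :: w0) = x :: up w0 := by
      rw [up, List.map_cons]
      rfl
    rw [h1, ← hw0]

theorem pf_IND : Pool.Agent.H59.LIN.T_IND := by
  intro Q hQ n
  induction n with
  | zero =>
    intro w
    cases w with
    | nil => exact hQ.one
    | cons x w => exact x.1.elim0
  | succ n IH =>
    intro w
    have hsk : ∀ (u v : Wd (n + 1)) (i : Fin (n + 1)) (b c : Bool), Q (n + 1) (u ++ (i, c) :: v) →
        Q (n + 1) (u ++ v) → Q (n + 1) (u ++ (i, b) :: v) := by
      intro u v i b c h1 h2
      cases b <;> cases c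
      · exact h1
      · exact hQ.sk2 _ _ _ _ h1 h2
      · exact hQ.sk1 _ _ _ _ h1 h2
      · exact h1
    have key := in_step (P := Q (n + 1)) (hQ.cancel (n + 1)) (hQ.far (n + 1)) (hQ.braid (n + 1))
      hsk (n + 1) w (fun x _ => x.1.2) [] [] (by
        intro w1 hw1 hoc
        rw [List.nil_append, List.append_nil]
        rw [Nat.add_sub_cancel] at hoc
        by_cases h0 : oc n w1 = 0
        · obtain ⟨w0, hw0⟩ := in_up w1 (fun x hx => by
            have h1 := hw1 x hx
            have h2 := oc_zero h0 x hx
            omega)
          rw [hw0]
          exact hQ.dis n w0 (IH w0)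
        · obtain ⟨a, x, c, h1, hx, ha⟩ := in_split (fun x => decide ((x.1 : ℕ) = n)) w1 (by
            have : oc n w1 = w1.countP fun x => decide ((x.1 : ℕ) = n) := rfl
            omega)
          rw [decide_eq_true_eq] at hx
          have ha0 : oc n a = 0 := by
            rw [oc, List.countP_eq_zero]
            intro y hy
            rw [ha y hy]
            exact Bool.false_ne_true
          have hc0 : oc n c = 0 := by
            rw [h1, oc_append, oc_cons_eq _ hx] at hoc
            omega
          obtain ⟨a0, ha1⟩ := in_up a (fun y hy => by
            have h2 := y.1.2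
            have h3 := oc_zero ha0 y hy
            omega)
          obtain ⟨c0, hc1⟩ := in_up c (fun y hy => by
            have h2 := y.1.2
            have h3 := oc_zero hc0 y hy
            omega)
          obtain ⟨i, b⟩ := x
          have hi : i = Fin.last n := Fin.ext hx
          have h2 : Q (n + 1) (up (c0 ++ a0) ++ [(Fin.last n, b)]) :=
            hQ.stab n (c0 ++ a0) b (IH _)
          have h3 : up (c0 ++ a0) ++ [(Fin.last n, b)] = up c0 ++ (up a0 ++ [(Fin.last n, b)]) := by
            rw [up, List.map_append, List.append_assoc]
            rfl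
          rw [h3] at h2
          have h4 := hQ.conj (n + 1) _ _ h2
          rw [h1, ha1, hc1, hi]
          simp only [List.append_assoc, List.cons_append, List.nil_append] at h4 ⊢
          exact h4)
    simpa using key

end Pool.Agent.H36.LIN
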